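import Pool.Agent.Helper27.FK.Two

/-!
# Theorem F, piece P1: every tuple of two-letter type is admissible
-/

open Finset

namespace Pool.Agent.Helper87.FKF

open Pool.Agent.Helper7.FR Pool.Agent.Helper27.FK

/-- the sequence `⌈j / y - φ / y⌉` is injective when `0 < y < 1`. -/
lemma ceil_inj {y φ : ℝ} (h0 : 0 < y) (h1 : y < 1) {j k : ℤ}
    (h : ⌈(j:ℝ) / y - φ / y⌉ = ⌈(k:ℝ) / y - φ / y⌉) : j = k := by
  have key : ∀ a b : ℤ, ⌈(a:ℝ) / y - φ / y⌉ = ⌈(b:ℝ) / y - φ / y⌉ → a ≤ b := by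
    intro a b hab
    by_contra hlt
    push Not at hlt
    have h2 : (b:ℝ) + 1 ≤ a := by exact_mod_cast hlt
    have h3 := Int.le_ceil ((a:ℝ) / y - φ / y)
    have h4 := Int.ceil_lt_add_one ((b:ℝ) / y - φ / y)
    rw [hab] at h3
    have h5 : (a:ℝ) / y - (b:ℝ) / y < 1 := by linarith
    rw [← sub_div, div_lt_one h0] at h5
    linarith
  exact le_antisymm (key j k h) (key k j h.symm)

/-- splitting a letter periodically: the set `S'` for the rate `y / T` and a suitable phase. -/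
lemma mem_Sset_split {y φ : ℝ} (h0 : 0 < y) {T : ℕ} (hT : 0 < T) (a m : ℤ) :
    m ∈ Sset (y / T) ((φ + ((-a) % (T:ℤ) : ℤ)) / T) ↔
      ∃ j : ℤ, (T:ℤ) ∣ j - a ∧ ⌈(j:ℝ) / y - φ / y⌉ = m := by
  have hT' : (0:ℝ) < T := by exact_mod_cast hT
  have hy : y ≠ 0 := h0.ne'
  have hTn : (T:ℝ) ≠ 0 := hT'.ne'
  unfold Sset
  rw [Set.mem_range]
  have e : ∀ l : ℤ, (l:ℝ) / (y / T) - ((φ + ((-a) % (T:ℤ) : ℤ)) / T) / (y / T) =
      ((l * T - (-a) % (T:ℤ) : ℤ) : ℝ) / y - φ / y := by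
    intro l
    push_cast
    field_simp
    ring
  constructor
  · rintro ⟨l, hl⟩
    refine ⟨l * T - (-a) % (T:ℤ), ?_, ?_⟩
    · have h1 := Int.emod_add_mul_ediv (-a) (T:ℤ)
      refine ⟨l + (-a) / (T:ℤ), ?_⟩
      linear_combination -h1
    · rw [← e l]; exact hl
  · rintro ⟨j, ⟨c, hc⟩, hj⟩
    have h1 := Int.emod_add_mul_ediv (-a) (T:ℤ)
    refine ⟨c - (-a) / (T:ℤ), ?_⟩
    rw [e]
    have h2 : (c - (-a) / (T:ℤ)) * (T:ℤ) - (-a) % (T:ℤ) = j := by
      linear_combination -hc - h1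
    rw [h2]
    exact hj

/-- P1: every tuple of two-letter type is admissible. -/
theorem P1 {n : ℕ} {r : Fin n → ℝ} (h : TwoLetter r) : Admissible r := by
  obtain ⟨x, s, T, a, hx0, hx1, hT, hr, hcov⟩ := h
  have h2 : Admissible (![x, 1 - x] : Fin 2 → ℝ) := by
    apply admissible_two
    · intro i
      fin_cases i
      · exact ⟨hx0, hx1⟩
      · simp only [Fin.mk_one, Matrix.cons_val_one, Matrix.cons_val_fin_one]
        exact ⟨by linarith, by linarith⟩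
    · rw [Fin.sum_univ_two]
      simp
  obtain ⟨φ, hφ, hex⟩ := h2
  -- the letter of `i`
  let b : Bool → Fin 2 := fun β => if β then 0 else 1
  have hρ : ∀ β : Bool, (![x, 1 - x] : Fin 2 → ℝ) (b β) = if β then x else 1 - x := by
    intro β
    cases β <;> simp [b]
  have hρ0 : ∀ c : Fin 2, 0 < (![x, 1 - x] : Fin 2 → ℝ) c ∧ (![x, 1 - x] : Fin 2 → ℝ) c < 1 := by
    intro c
    fin_cases c
    · exact ⟨hx0, hx1⟩
    · simp only [Fin.mk_one, Matrix.cons_val_one, Matrix.cons_val_fin_one]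
      exact ⟨by linarith, by linarith⟩
  have hb : ∀ c : Fin 2, ∃ β, b β = c := by
    intro c
    fin_cases c
    · exact ⟨true, rfl⟩
    · exact ⟨false, rfl⟩
  have hbinj : ∀ β γ, b β = b γ → β = γ := by
    intro β γ hβγ
    cases β <;> cases γ <;> simp_all [b]
  refine ⟨fun i => (φ (b (s i)) + ((-a i) % (T i : ℤ) : ℤ)) / T i, ?_, ?_⟩
  · intro i
    have hTi : (0:ℝ) < T i := by exact_mod_cast hT i
    have hTz : (0:ℤ) < T i := by exact_mod_cast hT i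
    have h3 : 0 ≤ (-a i) % (T i : ℤ) := Int.emod_nonneg _ hTz.ne'
    have h4 : (-a i) % (T i : ℤ) < T i := Int.emod_lt_of_pos _ hTz
    have h3' : (0:ℝ) ≤ (((-a i) % (T i : ℤ) : ℤ) : ℝ) := by exact_mod_cast h3
    have h4' : (((-a i) % (T i : ℤ) : ℤ) : ℝ) + 1 ≤ T i := by exact_mod_cast h4
    have h5 := hφ (b (s i))
    constructor
    · exact div_nonneg (by linarith) hTi.le
    · rw [div_lt_one hTi]
      linarith
  · -- membership in the sets
    have hmem : ∀ i m, m ∈ Sset (r i) ((φ (b (s i)) + ((-a i) % (T i : ℤ) : ℤ)) / T i) ↔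
        ∃ j : ℤ, (T i : ℤ) ∣ j - a i ∧
          ⌈(j:ℝ) / (![x, 1 - x] : Fin 2 → ℝ) (b (s i)) -
            φ (b (s i)) / (![x, 1 - x] : Fin 2 → ℝ) (b (s i))⌉ = m := by
      intro i m
      rw [hr i, ← hρ (s i)]
      exact mem_Sset_split (hρ0 _).1 (hT i) (a i) m
    intro m
    obtain ⟨c, hc, hcu⟩ := hex m
    obtain ⟨β, rfl⟩ := hb c
    obtain ⟨j, hj⟩ := hc
    obtain ⟨i, ⟨hi1, hi2⟩, hiu⟩ := hcov β j
    refine ⟨i, ?_, ?_⟩
    · change m ∈ Sset (r i) ((φ (b (s i)) + ((-a i) % (T i : ℤ) : ℤ)) / T i)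
      rw [hmem, hi1]
      exact ⟨j, hi2, hj⟩
    · intro k hk
      change m ∈ Sset (r k) ((φ (b (s k)) + ((-a k) % (T k : ℤ) : ℤ)) / T k) at hk
      rw [hmem] at hk
      obtain ⟨l, hl1, hl2⟩ := hk
      have h6 : b (s k) = b β := hcu (b (s k)) ⟨l, hl2⟩
      have h7 : s k = β := hbinj _ _ h6
      rw [h6] at hl2
      have h8 : l = j := ceil_inj (hρ0 _).1 (hρ0 _).2 (hl2.trans hj.symm)
      subst h8
      exact hiu k ⟨h7, hl1⟩

end Pool.Agent.Helper87.FKF
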